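import Pool.Agent.Q46.SC.Main

set_option autoImplicit false

namespace Pool.Agent.Results.MP_1f99fc_al.AndreCoarsest

open Q46.SC

/-- Let `F` be a finite field, `θ` a nontrivial additive character of `F` and `T` any
supercharacter theory of the unitriangular group `U_n(F)` which contains all single-box
supercharacters as irreducible characters. Then every superclass of `T` is contained in a superclass
of the theory of André. In other words, `T` is finer than (or equal to) the theory of André. -/
theorem result (n : ℕ) (F : Type) [Field F] [Finite F] (θ : AddChar F ℂ) (hθ : θ ≠ 1)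
    (T : SupercharacterTheory (unitri n F)) (hT : ContainsSingleBoxes θ T) :
    ∀ C ∈ T.K, ∀ g ∈ C, C ⊆ superclass g := by
  intro C hC g hg h hh
  have : Finite (Matrix (Fin n) (Fin n) F) := inferInstanceAs (Finite (Fin n → Fin n → F))
  have : Finite (Matrix.GeneralLinearGroup (Fin n) F) :=
    Finite.of_injective (fun g => (g : Matrix (Fin n) (Fin n) F)) Units.val_injective
  have : Fintype (unitri n F) := Fintype.ofFinite _
  refine same_class θ hθ g h fun i j hij a ha => ?_
  obtain ⟨c, hc, hX⟩ := hT i j hij a ha
  have h1 := T.const _ hX C hC g hg h hh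
  rw [finsum_mem_singleton, finsum_mem_singleton] at h1
  have hc' : (c : ℂ) ≠ 0 := by exact_mod_cast hc.ne'
  have h2 := mul_left_cancel₀ (mul_ne_zero hc' (orbitSum_one θ (box i j a))) h1
  exact mul_left_cancel₀ hc' h2

end Pool.Agent.Results.MP_1f99fc_al.AndreCoarsest
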